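import Pool.Agent.Zk33.HG.Defs

/-!
Several independent curves, from one curve.
-/

set_option autoImplicit false

namespace Pool.Agent.Zk69.HG

open H984N MeasureTheory Filter Topology Metric Set
open Pool.Agent.Zk33.HF Pool.Agent.Zk33.HG Pool.Agent.H389R2.Dim
open scoped ENNReal NNReal

/-- Content at the exponent `s` gives content at a smaller exponent `t`. -/
theorem content_low {s t c y : ℝ} (ht : 0 ≤ t) (hts : t ≤ s) (hy : 0 < y) {S : Set ℂ}
    (h : Content s (c * y ^ s) S) : Content t (min c 1 * y ^ t) S := by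
  intro F hF hcov
  have hyt : 0 < y ^ t := Real.rpow_pos_of_pos hy t
  by_cases hbig : ∃ p ∈ F, y < p.2
  · obtain ⟨p, hp, hpy⟩ := hbig
    have h1 : p.2 ^ t ≤ ∑ q ∈ F, q.2 ^ t :=
      Finset.single_le_sum (f := fun q : ℂ × ℝ => q.2 ^ t)
        (fun q hq => Real.rpow_nonneg (hF q hq).le _) hp
    have h2 : y ^ t ≤ p.2 ^ t := Real.rpow_le_rpow hy.le hpy.le ht
    have h3 : min c 1 * y ^ t ≤ 1 * y ^ t := mul_le_mul_of_nonneg_right (min_le_right _ _) hyt.le
    linarith
  · push Not at hbig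
    have h1 := h F hF hcov
    have h2 : ∑ p ∈ F, p.2 ^ s ≤ y ^ (s - t) * ∑ p ∈ F, p.2 ^ t := by
      rw [Finset.mul_sum]
      refine Finset.sum_le_sum fun p hp => ?_
      have hp0 := hF p hp
      calc p.2 ^ s = p.2 ^ (s - t) * p.2 ^ t := by
            rw [← Real.rpow_add hp0]
            congr 1
            ring
        _ ≤ y ^ (s - t) * p.2 ^ t := by
          refine mul_le_mul_of_nonneg_right ?_ (Real.rpow_nonneg hp0.le _)
          exact Real.rpow_le_rpow hp0.le (hbig p hp) (by linarith)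
    have h3 : y ^ s = y ^ (s - t) * y ^ t := by
      rw [← Real.rpow_add hy]
      congr 1
      ring
    have h4 : 0 < y ^ (s - t) := Real.rpow_pos_of_pos hy _
    have h5 : y ^ (s - t) * (c * y ^ t) ≤ y ^ (s - t) * ∑ p ∈ F, p.2 ^ t := by
      calc y ^ (s - t) * (c * y ^ t) = c * y ^ s := by
            rw [h3]
            ring
        _ ≤ _ := h1.trans h2
    have h6 : c * y ^ t ≤ ∑ p ∈ F, p.2 ^ t := le_of_mul_le_mul_left h5 h4
    refine le_trans ?_ h6
    exact mul_le_mul_of_nonneg_right (min_le_left _ _) hyt.le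

/-- Positive content of the intersection is a closed event. -/
theorem isClosed_content {k : ℕ} {S : Set ℂ} (hS : IsCompact S) (t c : ℝ) :
    IsClosed {ω : Fin k → X | Content t c (S ∩ comm ω)} := by
  have h := isClosed_content_of (t := t) (c := c)
    (A := fun ω : Fin k → X => NS Gs 0 S ω) fun O hO => isOpen_NS_sub Gs_cont hS hO
  simp only [NS_eq] at h
  exact h

/-- The event that the content is positive at infinitely many scales is measurable. -/
theorem meas_freq {k : ℕ} {S : ℕ → Set ℂ} (hS : ∀ i, IsCompact (S i)) (t : ℝ) (c : ℕ → ℝ) :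
    MeasurableSet {ω : Fin k → X | ∃ᶠ i in atTop, Content t (c i) (S i ∩ comm ω)} := by
  have e : {ω : Fin k → X | ∃ᶠ i in atTop, Content t (c i) (S i ∩ comm ω)} =
      ⋂ n : ℕ, ⋃ i : ℕ, ⋃ _ : n ≤ i, {ω : Fin k → X | Content t (c i) (S i ∩ comm ω)} := by
    ext ω
    simp only [mem_ofPred_eq, mem_iInter, mem_iUnion, frequently_atTop, exists_prop]
  rw [e]
  exact MeasurableSet.iInter fun n => MeasurableSet.iUnion fun i => MeasurableSet.iUnion fun _ =>
    (isClosed_content (hS i) t (c i)).measurableSet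

theorem comm_cons {k : ℕ} (x : X) (ω : Fin k → X) :
    Pool.Agent.Zk33.HF.comm (Fin.cons x ω : Fin (k + 1) → X) = range x.1 ∩ Pool.Agent.Zk33.HF.comm ω := by
  unfold Pool.Agent.Zk33.HF.comm
  ext z
  simp only [mem_iInter, mem_inter_iff]
  rw [Fin.forall_fin_succ]
  simp only [Fin.cons_zero, Fin.cons_succ]

/-- A subsequence. -/
theorem Sc.sub_seq {s s' c c' Y : ℝ} {y : ℕ → ℝ} {S : ℕ → Set ℂ} (h : Sc s c Y y S)
    {φ : ℕ → ℕ} (hφ : StrictMono φ) {K : Set ℂ} (hK : IsClosed K)
    (hc : ∀ n, Content s' (c' * y (φ n) ^ s') (S (φ n) ∩ K)) :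
    Sc s' c' Y (fun n => y (φ n)) (fun n => S (φ n) ∩ K) := by
  have hanti : Antitone y := antitone_nat_of_succ_le fun i => by
    have h1 := h.dec i
    have h2 := h.pos i
    linarith
  refine ⟨fun n => h.pos _, fun n => h.le _, fun n => ?_, fun n => (h.cpt _).inter_right hK,
    fun n => inter_subset_left.trans (h.sub _), hc⟩
  exact (hanti (Nat.succ_le_of_lt (hφ (Nat.lt_succ_self n)))).trans (h.dec _)

/-- Fubini for `Pm`. -/
theorem ae_Pm_succ {k : ℕ} (μ : Fin (k + 1) → ProbabilityMeasure X) {E : Set (Fin (k + 1) → X)}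
    (hE : MeasurableSet E)
    (h : ∀ᵐ x ∂(μ 0 : Measure X), ∀ᵐ ω ∂(Pm fun i => μ i.succ),
      (Fin.cons x ω : Fin (k + 1) → X) ∈ E) :
    ∀ᵐ ω ∂(Pm μ), ω ∈ E := by
  have hmp := measurePreserving_piFinSuccAbove (fun i => (μ i : Measure X)) 0
  set e := MeasurableEquiv.piFinSuccAbove (fun _ : Fin (k + 1) => X) 0 with he
  have h0 : ∀ (x : X) (ω : Fin k → X), e.symm (x, ω) = (Fin.cons x ω : Fin (k + 1) → X) := by
    intro x ω
    rw [he]
    exact Fin.insertNth_zero' x ω
  have h1 : ∀ᵐ q ∂((μ 0 : Measure X).prod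
      (Measure.pi fun j => (μ ((0 : Fin (k+1)).succAbove j) : Measure X))), e.symm q ∈ E := by
    rw [Measure.ae_prod_iff_ae_ae (e.symm.measurable hE)]
    simp only [h0, Fin.zero_succAbove]
    exact h
  have h2 := hmp.quasiMeasurePreserving.ae h1
  unfold Pm
  filter_upwards [h2] with ω hω
  rwa [e.symm_apply_apply] at hω

theorem stWk (hW : StW) : StWk := by
  intro k
  induction k with
  | zero =>
    intro s t c ht hts hc
    refine ⟨min c 1, lt_min hc one_pos, ?_⟩
    intro R μ hμ Y hY y S hS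
    refine Eventually.of_forall fun ω => Frequently.of_forall fun i => ?_
    have e : Pool.Agent.Zk33.HF.comm ω = univ := by
      unfold Pool.Agent.Zk33.HF.comm
      exact iInter_of_empty _
    rw [e, inter_univ]
    exact content_low ht (by simpa using hts.le) (hS.pos i) (hS.con i)
  | succ k ih =>
    intro s t c ht hts hc
    obtain ⟨s', hs1, hs2⟩ : ∃ s' : ℝ, t + (k : ℝ) / 4 < s' ∧ s' + 1/4 < s := by
      push_cast at hts
      exact ⟨(t + (k : ℝ) / 4 + s - 1/4) / 2, by linarith, by linarith⟩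
    have hs0 : 0 ≤ s' := by
      have : (0 : ℝ) ≤ (k : ℝ) / 4 := by positivity
      linarith
    obtain ⟨κ1, hκ1, h1⟩ := hW s s' c hs0 hs2 hc
    obtain ⟨κ2, hκ2, h2⟩ := ih s' t κ1 ht hs1 hκ1
    refine ⟨κ2, hκ2, ?_⟩
    intro R μ hμ Y hY y S hS
    have hS0 : Sc s c (Y0 (R 0)) y S :=
      ⟨hS.pos, fun i => (hS.le i).trans (hY 0), hS.dec, hS.cpt, hS.sub, hS.con⟩
    have h3 := h1 (R 0) (μ 0) (hμ 0) y S hS0
    refine ae_Pm_succ μ (meas_freq hS.cpt t _) ?_
    filter_upwards [h3] with x hx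
    obtain ⟨φ, hφ, hφ2⟩ := extraction_of_frequently_atTop hx
    have h4 := h2 (fun i => R i.succ) (fun i => μ i.succ) (fun i => hμ i.succ) Y
      (fun i => hY i.succ) _ _ (Sc.sub_seq hS hφ (isCompact_range x.1.continuous).isClosed hφ2)
    filter_upwards [h4] with ω hω
    have h5 : ∃ᶠ n in atTop, Content t (κ2 * y (φ n) ^ t)
        (S (φ n) ∩ comm (Fin.cons x ω : Fin (k + 1) → X)) := by
      refine hω.mono fun n hn => ?_
      rw [comm_cons, ← inter_assoc]
      exact hn
    exact hφ.tendsto_atTop.frequently h5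

end Pool.Agent.Zk69.HG
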