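import Pool.Agent.Zk33.HG.NullDefs
import Pool.Agent.Zk69.HG.Wk

/-!
Sets of measure zero and several independent curves.
-/

set_option autoImplicit false

namespace Pool.Agent.Zk69.HG

open H984N MeasureTheory Filter Topology Metric Set
open Pool.Agent.Zk33.HF Pool.Agent.Zk33.HG
open scoped ENNReal NNReal

theorem Null.mono {t : ℝ} {S S' : Set ℂ} (h : Null t S) (hs : S' ⊆ S) : Null t S' :=
  fun c hc h' => h c hc (h'.mono hs)

theorem meas_null {k : ℕ} {S : Set ℂ} (hS : IsCompact S) (t : ℝ) :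
    MeasurableSet {ω : Fin k → X | Null t (S ∩ Pool.Agent.Zk33.HF.comm ω)} := by
  have e : {ω : Fin k → X | Null t (S ∩ Pool.Agent.Zk33.HF.comm ω)} =
      (⋃ n : ℕ, {ω : Fin k → X | Content t (1 / ((n : ℝ) + 1)) (S ∩ Pool.Agent.Zk33.HF.comm ω)})ᶜ := by
    ext ω
    simp only [mem_ofPred_eq, mem_compl_iff, mem_iUnion, not_exists]
    constructor
    · intro h n
      exact h _ (by positivity)
    · intro h c hc hcon
      obtain ⟨n, hn⟩ := exists_nat_one_div_lt hc
      exact h n (hcon.le hn.le)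
  rw [e]
  exact (MeasurableSet.iUnion fun n => (isClosed_content hS t _).measurableSet).compl

theorem stNk (h1 : StN1) : StNk := by
  intro k
  induction k with
  | zero =>
    intro R K hK hD μ hμ S hSK hS s hs hN
    refine Eventually.of_forall fun ω => ?_
    have e : Pool.Agent.Zk33.HF.comm ω = univ := by
      unfold Pool.Agent.Zk33.HF.comm
      exact iInter_of_empty _
    rw [e, inter_univ]
    simpa using hN
  | succ k ih =>
    intro R K hK hD μ hμ S hSK hS s hs hN
    push_cast at hs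
    have hk : (0 : ℝ) ≤ (k : ℝ) / 4 := by positivity
    have h2 := h1 (R 0) K hK (hD 0) (μ 0) (hμ 0) S hSK hS s (by linarith) hN
    refine ae_Pm_succ μ (meas_null hS _) ?_
    filter_upwards [h2] with x hx
    have h3 := ih (fun i => R i.succ) K hK (fun i => hD i.succ) (fun i => μ i.succ)
      (fun i => hμ i.succ) (S ∩ range x.1) (inter_subset_left.trans hSK)
      (hS.inter_right (isCompact_range x.1.continuous).isClosed) (s - 1/4) (by linarith) hx
    filter_upwards [h3] with ω hω
    change Null (s - ((k + 1 : ℕ) : ℝ) / 4)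
      (S ∩ Pool.Agent.Zk33.HF.comm (Fin.cons x ω : Fin (k + 1) → X))
    rw [comm_cons, ← inter_assoc]
    have e : s - ((k + 1 : ℕ) : ℝ) / 4 = s - 1/4 - (k : ℝ) / 4 := by
      push_cast
      ring
    rw [e]
    exact hω

theorem stNc (h1 : StN1) (h0 : StN0) : StNc := by
  intro k hk1 hk8 R K hK hD μ hμ
  obtain ⟨k, rfl⟩ : ∃ j, k = j + 1 := ⟨k - 1, by omega⟩
  have h2 := h0 (R 0) (μ 0) (hμ 0)
  refine ae_Pm_succ μ (meas_null hK _) ?_
  filter_upwards [h2] with x hx
  have hk7 : (k : ℝ) ≤ 7 := by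
    have : k ≤ 7 := by omega
    exact_mod_cast this
  have h3 := stNk h1 k (fun i => R i.succ) K hK (fun i => hD i.succ) (fun i => μ i.succ)
    (fun i => hμ i.succ) (K ∩ range x.1) inter_subset_left
    (hK.inter_right (isCompact_range x.1.continuous).isClosed) (7/4) (by linarith)
    (Null.mono hx inter_subset_right)
  filter_upwards [h3] with ω hω
  change Null (2 - ((k + 1 : ℕ) : ℝ) / 4)
    (K ∩ Pool.Agent.Zk33.HF.comm (Fin.cons x ω : Fin (k + 1) → X))
  rw [comm_cons, ← inter_assoc]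
  have e : 2 - ((k + 1 : ℕ) : ℝ) / 4 = 7/4 - (k : ℝ) / 4 := by
    push_cast
    ring
  rw [e]
  exact hω

theorem null_zero {S : Set ℂ} (h : Null 0 S) : S = ∅ := by
  by_contra hne
  rw [← ne_eq, ← nonempty_iff_ne_empty] at hne
  refine h 1 one_pos ?_
  intro F _ hcov
  obtain ⟨z, hz⟩ := hne
  obtain ⟨p, hp, -⟩ := mem_iUnion₂.1 (hcov hz)
  simp only [Real.rpow_zero, Finset.sum_const, nsmul_eq_mul, mul_one]
  exact_mod_cast Finset.card_pos.2 ⟨p, hp⟩

end Pool.Agent.Zk69.HG
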